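import Pool.Agent.H238.PH.Spec

/-!
# PH C3: separation of variables in the weak equation
-/

set_option autoImplicit false

namespace Pool.Agent.H980.PH

open MeasureTheory Set Filter Topology Pool.Agent.H238.PH
open scoped ContDiff RealInnerProductSpace

theorem grad_apply {n d : ℕ} (h : RE d → RE n) (x : RE d) (α : Fin n) (i : Fin d) :
    grad h x (α, i) = fderiv ℝ h x (EuclideanSpace.single i 1) α := rfl

theorem Aop_apply {n d : ℕ} (p : ℝ) (ξ : Mat n d) (α : Fin n) (i : Fin d) :
    Aop p ξ (α, i) = ‖ξ‖ ^ (p - 2) * ξ (α, i) := rfl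

theorem norm_Aop {n d : ℕ} {p : ℝ} (hp : 1 < p) (ξ : Mat n d) : ‖Aop p ξ‖ = ‖ξ‖ ^ (p - 1) := by
  unfold Aop
  rw [norm_smul, Real.norm_of_nonneg (Real.rpow_nonneg (norm_nonneg _) _)]
  by_cases h : ‖ξ‖ = 0
  · rw [h, mul_zero, Real.zero_rpow (by linarith)]
  · rw [← Real.rpow_add_one h]
    congr 1
    ring

theorem continuous_Aop {n d : ℕ} {p : ℝ} (hp : 1 < p) : Continuous (Aop p : Mat n d → Mat n d) := by
  rw [continuous_iff_continuousAt]
  intro ξ
  by_cases h : ξ = 0
  · subst h
    have h0 : Aop p (0 : Mat n d) = 0 := by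
      unfold Aop
      rw [smul_zero]
    unfold ContinuousAt
    rw [h0, tendsto_zero_iff_norm_tendsto_zero]
    have h1 : Continuous fun ξ : Mat n d => ‖ξ‖ ^ (p - 1) :=
      continuous_norm.rpow_const fun _ => Or.inr (by linarith)
    have h2 := h1.tendsto 0
    rw [norm_zero, Real.zero_rpow (by linarith)] at h2
    exact h2.congr fun ξ => (norm_Aop hp ξ).symm
  · unfold Aop
    have h1 : ContinuousAt (fun ξ : Mat n d => ‖ξ‖ ^ (p - 2)) ξ :=
      (continuous_norm.continuousAt).rpow_const (Or.inl (norm_ne_zero_iff.2 h))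
    have h2 : ContinuousAt (fun ξ : Mat n d => ξ) ξ := continuousAt_id
    exact h1.smul h2

theorem continuous_grad {n d : ℕ} {h : RE d → RE n} (hh : ContDiff ℝ 1 h) :
    Continuous (grad h) := by
  have h1 : Continuous (fderiv ℝ h) := hh.continuous_fderiv one_ne_zero
  unfold grad
  refine (PiLp.continuous_toLp 2 _).comp (continuous_pi fun β => ?_)
  have h2 : Continuous fun x => fderiv ℝ h x (EuclideanSpace.single β.2 1) :=
    h1.clm_apply continuous_const
  exact (EuclideanSpace.proj (𝕜 := ℝ) β.1).continuous.comp h2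

/-- the basis vectors -/
noncomputable abbrev e0 : RE 2 := EuclideanSpace.single 0 1
noncomputable abbrev e1 : RE 2 := EuclideanSpace.single 1 1

theorem ec_eq (t : ℝ) : ec t = Real.cos t • e0 + Real.sin t • e1 := by
  ext i
  fin_cases i
  · simp [ec]
  · simp [ec]

theorem et_eq (t : ℝ) : et t = (-Real.sin t) • e0 + Real.cos t • e1 := by
  ext i
  fin_cases i
  · simp [et]
  · simp [et]

theorem hasDerivAt_ec (t : ℝ) : HasDerivAt ec (et t) t := by
  have h1 : HasDerivAt (fun t => Real.cos t • e0 + Real.sin t • e1)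
      ((-Real.sin t) • e0 + Real.cos t • e1) t :=
    ((Real.hasDerivAt_cos t).smul_const e0).add ((Real.hasDerivAt_sin t).smul_const e1)
  rw [← et_eq] at h1
  have h2 : ec = fun t => Real.cos t • e0 + Real.sin t • e1 := funext ec_eq
  rw [h2]
  exact h1

theorem continuous_ec : Continuous ec := by
  have h2 : ec = fun t => Real.cos t • e0 + Real.sin t • e1 := funext ec_eq
  rw [h2]
  exact (Real.continuous_cos.smul continuous_const).add (Real.continuous_sin.smul continuous_const)

/-- the change of basis -/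
theorem basis_change (a b : RE 2 →L[ℝ] ℝ) (t : ℝ) :
    ∑ i : Fin 2, a (EuclideanSpace.single i 1) * b (EuclideanSpace.single i 1) =
      a (ec t) * b (ec t) + a (et t) * b (et t) := by
  rw [Fin.sum_univ_two, ec_eq, et_eq]
  simp only [map_add, map_smul, smul_eq_mul]
  have h := Real.sin_sq_add_cos_sq t
  linear_combination (-(a e0 * b e0 + a e1 * b e1)) * h

section main

variable {n : ℕ} {p β : ℝ} {h : RE 2 → RE n}

/-- the radial integral -/
theorem radial {g : ℝ → ℝ} (hg : ContDiff ℝ ∞ g) (hgc : HasCompactSupport g)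
    (hg0 : ∀ r, 0 < r → 0 ≤ g r) (hg1 : g 1 = 1) {m : ℝ} (hm : 0 < m) :
    IntegrableOn (fun r => r ^ m * g r) (Ioi 0) ∧
    IntegrableOn (fun r => r ^ (m + 1) * deriv g r) (Ioi 0) ∧
    0 < ∫ r in Ioi (0 : ℝ), r ^ m * g r ∧
    ∫ r in Ioi (0 : ℝ), r ^ (m + 1) * deriv g r = -((m + 1) * ∫ r in Ioi (0 : ℝ), r ^ m * g r) := by
  have hgd : Continuous (deriv g) := hg.continuous_deriv (by simp)
  have c1 : Continuous fun r : ℝ => r ^ m * g r :=
    (Real.continuous_rpow_const hm.le).mul hg.continuous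
  have c2 : Continuous fun r : ℝ => r ^ (m + 1) * deriv g r :=
    (Real.continuous_rpow_const (by linarith)).mul hgd
  have i1 : Integrable fun r : ℝ => r ^ m * g r :=
    c1.integrable_of_hasCompactSupport hgc.mul_left
  have i2 : Integrable fun r : ℝ => r ^ (m + 1) * deriv g r :=
    c2.integrable_of_hasCompactSupport hgc.deriv.mul_left
  refine ⟨i1.integrableOn, i2.integrableOn, ?_, ?_⟩
  · rw [setIntegral_pos_iff_support_of_nonneg_ae _ i1.integrableOn]
    · apply IsOpen.measure_pos
      · exact (c1.isOpen_support).inter isOpen_Ioi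
      · refine ⟨1, ?_, Set.mem_Ioi.2 one_pos⟩
        rw [Function.mem_support, hg1, Real.one_rpow, mul_one]
        exact one_ne_zero
    · rw [EventuallyLE, ae_restrict_iff' measurableSet_Ioi]
      refine Eventually.of_forall fun r hr => ?_
      exact mul_nonneg (Real.rpow_nonneg (le_of_lt hr) _) (hg0 r hr)
  · have hderiv : ∀ r ∈ Ioi (0 : ℝ), HasDerivAt (fun r : ℝ => r ^ (m + 1) * g r)
        ((m + 1) * (r ^ m * g r) + r ^ (m + 1) * deriv g r) r := by
      intro r hr
      have h1 : HasDerivAt (fun r : ℝ => r ^ (m + 1)) ((m + 1) * r ^ m) r := by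
        have h2 := Real.hasDerivAt_rpow_const (x := r) (p := m + 1) (Or.inr (by linarith))
        rwa [add_sub_cancel_right] at h2
      have h3 : HasDerivAt g (deriv g r) r := (hg.differentiable (by simp) r).hasDerivAt
      have h4 := h1.mul h3
      have e : (m + 1) * (r ^ m * g r) + r ^ (m + 1) * deriv g r =
          (m + 1) * r ^ m * g r + r ^ (m + 1) * deriv g r := by ring
      rw [e]
      exact h4
    have c3 : Continuous fun r : ℝ => r ^ (m + 1) * g r :=
      (Real.continuous_rpow_const (by linarith)).mul hg.continuous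
    have h1 := integral_Ioi_of_hasDerivAt_of_tendsto (a := (0 : ℝ)) (m := (0 : ℝ))
      (f := fun r : ℝ => r ^ (m + 1) * g r)
      (f' := fun r => (m + 1) * (r ^ m * g r) + r ^ (m + 1) * deriv g r)
      c3.continuousWithinAt hderiv
      ((i1.integrableOn.const_mul _).add i2.integrableOn)
      (by
        have h2 : HasCompactSupport fun r : ℝ => r ^ (m + 1) * g r := hgc.mul_left
        have h3 : (fun r : ℝ => r ^ (m + 1) * g r) =ᶠ[atTop] fun _ => 0 := by
          have h4 := h2.isCompact.isBounded.bddAbove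
          obtain ⟨M, hM⟩ := h4
          filter_upwards [eventually_gt_atTop M] with r hr
          by_contra hne
          have h5 : r ∈ tsupport fun r : ℝ => r ^ (m + 1) * g r := subset_tsupport _ hne
          exact absurd (hM h5) (not_le.2 hr)
        exact tendsto_const_nhds.congr' h3.symm)
    rw [Real.zero_rpow (by linarith), zero_mul, sub_zero,
      integral_add (i1.integrableOn.const_mul _) i2.integrableOn, integral_const_mul] at h1
    linarith

theorem grad_smul (hA : S_A) (hh : ContDiff ℝ 1 h) (hhom : Hom β h) {r : ℝ} (hr : 0 < r)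
    (x : RE 2) : grad h (r • x) = r ^ (β - 1) • grad h x := by
  ext ⟨α, i⟩
  have h1 := (hA n β h hh hhom).1 r x hr
  rw [grad_apply, h1]
  rfl

/-- the general identity -/
theorem moment (hA : S_A) (hB : S_B) (hC1 : S_C1) (hp : 1 < p) (hβ : 1 < β)
    (hH : IsPHarmonic p h) (hhom : Hom β h) {g : ℝ → ℝ} (hg : ContDiff ℝ ∞ g)
    (hgc : HasCompactSupport g) (hg0 : ∀ r, 0 < r → 0 ≤ g r) (hg1 : g 1 = 1) {ψ : RE 2 → ℝ}
    (hψ : ContDiff ℝ ∞ ψ) (hψc : HasCompactSupport ψ) {c c' : ℝ → ℝ} (hcc : Continuous c)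
    (hcc' : Continuous c') (hc : ∀ t, HasDerivAt c (c' t) t)
    (hψg : ∀ r t, ψ (r • ec t) = g r * c t) :
    ∫ t in (-Real.pi)..Real.pi, c' t • (‖grad h (ec t)‖ ^ (p - 2) • fderiv ℝ h (ec t) (et t))
      = CC p β • ∫ t in (-Real.pi)..Real.pi, c t • (‖grad h (ec t)‖ ^ (p - 2) • h (ec t)) := by
  have hh := hH.contDiff
  obtain ⟨B1, B2, B3, B4⟩ := hB n β h hh hhom
  have hA1 := (hA n β h hh hhom).1
  have hm : 0 < (β - 1) * (p - 1) := mul_pos (by linarith) (by linarith)
  obtain ⟨m, hmd⟩ : ∃ m : ℝ, m = (β - 1) * (p - 1) := ⟨_, rfl⟩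
  rw [← hmd] at hm
  obtain ⟨i1, i2, hI, hparts⟩ := radial hg hgc hg0 hg1 hm
  have hcA : Continuous fun x => Aop p (grad h x) := (continuous_Aop hp).comp (continuous_grad hh)
  have hcA2 : ∀ (α : Fin n) (i : Fin 2), Continuous fun x => Aop p (grad h x) (α, i) := fun α i =>
    (EuclideanSpace.proj (𝕜 := ℝ) (α, i)).continuous.comp hcA
  -- the continuity of the vector fields on the circle
  have hV0 : ∀ i : Fin 2, Continuous fun t =>
      ‖grad h (ec t)‖ ^ (p - 2) • fderiv ℝ h (ec t) (EuclideanSpace.single i 1) := by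
    intro i
    rw [show (fun t => ‖grad h (ec t)‖ ^ (p - 2) • fderiv ℝ h (ec t) (EuclideanSpace.single i 1)) =
      fun t => WithLp.toLp 2 fun α => Aop p (grad h (ec t)) (α, i) from rfl]
    exact (PiLp.continuous_toLp 2 _).comp
      (continuous_pi fun α => (hcA2 α i).comp continuous_ec)
  have hVet : Continuous fun t => ‖grad h (ec t)‖ ^ (p - 2) • fderiv ℝ h (ec t) (et t) := by
    have e : (fun t => ‖grad h (ec t)‖ ^ (p - 2) • fderiv ℝ h (ec t) (et t)) = fun t =>
        (-Real.sin t) • (‖grad h (ec t)‖ ^ (p - 2) • fderiv ℝ h (ec t) e0) +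
        Real.cos t • (‖grad h (ec t)‖ ^ (p - 2) • fderiv ℝ h (ec t) e1) := by
      funext t
      conv_lhs => rw [et_eq, map_add, map_smul, map_smul, smul_add, smul_comm _ (-Real.sin t),
        smul_comm _ (Real.cos t)]
    rw [e]
    exact (Real.continuous_sin.neg.smul (hV0 0)).add (Real.continuous_cos.smul (hV0 1))
  have hVh : Continuous fun t => ‖grad h (ec t)‖ ^ (p - 2) • h (ec t) := by
    have e : (fun t => ‖grad h (ec t)‖ ^ (p - 2) • h (ec t)) = fun t => β⁻¹ •
        (Real.cos t • (‖grad h (ec t)‖ ^ (p - 2) • fderiv ℝ h (ec t) e0) +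
        Real.sin t • (‖grad h (ec t)‖ ^ (p - 2) • fderiv ℝ h (ec t) e1)) := by
      funext t
      have h1 : Real.cos t • (‖grad h (ec t)‖ ^ (p - 2) • fderiv ℝ h (ec t) e0) +
        Real.sin t • (‖grad h (ec t)‖ ^ (p - 2) • fderiv ℝ h (ec t) e1) =
        ‖grad h (ec t)‖ ^ (p - 2) • fderiv ℝ h (ec t) (Real.cos t • e0 + Real.sin t • e1) := by
        rw [map_add, map_smul, map_smul, smul_add, smul_comm _ (Real.cos t),
          smul_comm _ (Real.sin t)]
      rw [h1, ← ec_eq, B2, smul_comm _ β, smul_smul, inv_mul_cancel₀ (by linarith), one_smul]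
    rw [e]
    exact ((Real.continuous_cos.smul (hV0 0)).add
      (Real.continuous_sin.smul (hV0 1))).const_smul β⁻¹
  ext α
  -- components
  have hcomp : ∀ F : ℝ → RE n, Continuous F →
      (∫ t in (-Real.pi)..Real.pi, F t) α = ∫ t in (-Real.pi)..Real.pi, F t α := by
    intro F hF
    exact (ContinuousLinearMap.intervalIntegral_comp_comm (EuclideanSpace.proj (𝕜 := ℝ) α)
      (hF.intervalIntegrable _ _)).symm
  have E1 := hcomp (fun t => c' t • (‖grad h (ec t)‖ ^ (p - 2) • fderiv ℝ h (ec t) (et t)))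
    (hcc'.smul hVet)
  have E2 := hcomp (fun t => c t • (‖grad h (ec t)‖ ^ (p - 2) • h (ec t))) (hcc.smul hVh)
  rw [E1, PiLp.smul_apply, E2, smul_eq_mul]
  -- the weak equation
  obtain ⟨f, hf⟩ : ∃ f : RE 2 → ℝ, f = fun x => ∑ i : Fin 2, Aop p (grad h x) (α, i) *
    fderiv ℝ ψ x (EuclideanSpace.single i 1) := ⟨_, rfl⟩
  have hψd : Differentiable ℝ ψ := hψ.differentiable (by simp)
  have hweak : ∫ x, f x = 0 := by
    have h1 := hH.weak_eq (fun x => ψ x • (EuclideanSpace.single α 1 : RE n))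
      (hψ.smul contDiff_const) (hψc.smul_right)
    rw [← h1]
    congr 1
    funext x
    have h2 : ∀ i : Fin 2, fderiv ℝ (fun x => ψ x • (EuclideanSpace.single α 1 : RE n)) x
        (EuclideanSpace.single i 1) =
        (fderiv ℝ ψ x (EuclideanSpace.single i 1)) • (EuclideanSpace.single α 1 : RE n) := by
      intro i
      have h3 : HasFDerivAt (fun x => ψ x • (EuclideanSpace.single α 1 : RE n))
          ((fderiv ℝ ψ x).smulRight (EuclideanSpace.single α 1 : RE n)) x :=
        (hψd x).hasFDerivAt.smul_const _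
      rw [h3.fderiv]
      rfl
    rw [hf]
    simp only [h2]
    rw [Finset.sum_eq_single α]
    · refine Finset.sum_congr rfl fun i _ => ?_
      rw [PiLp.smul_apply, EuclideanSpace.single_apply, if_pos rfl, smul_eq_mul, mul_one]
    · intro α' _ hα'
      refine Finset.sum_eq_zero fun i _ => ?_
      rw [PiLp.smul_apply, EuclideanSpace.single_apply, if_neg hα', smul_zero, mul_zero]
    · intro h3
      exact absurd (Finset.mem_univ _) h3
  have hfc : Continuous f := by
    rw [hf]
    refine continuous_finset_sum _ fun i _ => (hcA2 α i).mul ?_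
    exact (hψ.continuous_fderiv (by simp)).clm_apply continuous_const
  have hfs : HasCompactSupport f := by
    refine (hψc.fderiv ℝ).mono ?_
    intro x hx
    rw [Function.mem_support] at hx ⊢
    intro h0
    apply hx
    rw [hf]
    refine Finset.sum_eq_zero fun i _ => ?_
    rw [h0]
    exact mul_zero _
  rw [hC1 f hfc hfs] at hweak
  -- the integrand in polar coordinates
  obtain ⟨U, hU⟩ : ∃ U : ℝ → ℝ, U = fun t => (c t • (‖grad h (ec t)‖ ^ (p - 2) • h (ec t))) α :=
    ⟨_, rfl⟩
  obtain ⟨V, hV⟩ : ∃ V : ℝ → ℝ, V = fun t => (c' t • (‖grad h (ec t)‖ ^ (p - 2) •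
    fderiv ℝ h (ec t) (et t))) α := ⟨_, rfl⟩
  have hUc : Continuous U := by
    rw [hU]
    exact (EuclideanSpace.proj (𝕜 := ℝ) α).continuous.comp (hcc.smul hVh)
  have hVc : Continuous V := by
    rw [hV]
    exact (EuclideanSpace.proj (𝕜 := ℝ) α).continuous.comp (hcc'.smul hVet)
  have hpt : ∀ r : ℝ, 0 < r → ∀ t : ℝ, r * f (r • ec t) =
      r ^ (m + 1) * deriv g r * β * U t + r ^ m * g r * V t := by
    intro r hr t
    have hg' : HasDerivAt g (deriv g r) r := (hg.differentiable (by simp) r).hasDerivAt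
    -- radial derivative
    have d1 : fderiv ℝ ψ (r • ec t) (ec t) = deriv g r * c t := by
      have h1 : HasDerivAt (fun s : ℝ => s • ec t) ((1 : ℝ) • ec t) r :=
        (hasDerivAt_id r).smul_const (ec t)
      rw [one_smul] at h1
      have h2 : HasDerivAt (fun s : ℝ => ψ (s • ec t)) (fderiv ℝ ψ (r • ec t) (ec t)) r :=
        (hψd (r • ec t)).hasFDerivAt.comp_hasDerivAt r h1
      have h3 : (fun s : ℝ => ψ (s • ec t)) = fun s => g s * c t := funext fun s => hψg s t
      rw [h3] at h2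
      exact h2.unique (hg'.mul_const (c t))
    -- tangential derivative
    have d2 : r * fderiv ℝ ψ (r • ec t) (et t) = g r * c' t := by
      have h1 : HasDerivAt (fun s : ℝ => r • ec s) (r • et t) t := (hasDerivAt_ec t).const_smul r
      have h2 : HasDerivAt (fun s : ℝ => ψ (r • ec s)) (fderiv ℝ ψ (r • ec t) (r • et t)) t :=
        (hψd (r • ec t)).hasFDerivAt.comp_hasDerivAt t h1
      have h3 : (fun s : ℝ => ψ (r • ec s)) = fun s => g r * c s := funext fun s => hψg r s
      rw [h3, map_smul, smul_eq_mul] at h2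
      exact h2.unique ((hc t).const_mul (g r))
    -- homogeneity
    have hAo : ∀ i : Fin 2, Aop p (grad h (r • ec t)) (α, i) =
        r ^ m * (‖grad h (ec t)‖ ^ (p - 2) *
          fderiv ℝ h (ec t) (EuclideanSpace.single i 1) α) := by
      intro i
      rw [Aop_apply, grad_smul hA hh hhom hr, norm_smul,
        Real.norm_of_nonneg (Real.rpow_nonneg hr.le _),
        Real.mul_rpow (Real.rpow_nonneg hr.le _) (norm_nonneg _), PiLp.smul_apply, smul_eq_mul,
        grad_apply, ← Real.rpow_mul hr.le]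
      have h1 : r ^ m = r ^ ((β - 1) * (p - 2)) * r ^ (β - 1) := by
        rw [← Real.rpow_add hr, hmd]
        congr 1
        ring
      rw [h1]
      ring
    obtain ⟨La, hLa⟩ : ∃ La : RE 2 →L[ℝ] ℝ, ∀ x, La x =
        ‖grad h (ec t)‖ ^ (p - 2) * fderiv ℝ h (ec t) x α :=
      ⟨‖grad h (ec t)‖ ^ (p - 2) • (EuclideanSpace.proj (𝕜 := ℝ) α).comp (fderiv ℝ h (ec t)),
        fun x => rfl⟩
    have h1 : f (r • ec t) = r ^ m * ∑ i : Fin 2, La (EuclideanSpace.single i 1) *
        fderiv ℝ ψ (r • ec t) (EuclideanSpace.single i 1) := by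
      rw [hf, Finset.mul_sum]
      refine Finset.sum_congr rfl fun i _ => ?_
      rw [hAo, hLa]
      ring
    rw [h1, basis_change La (fderiv ℝ ψ (r • ec t)) t, d1, hLa, hLa, B2]
    have h2 : U t = c t * (‖grad h (ec t)‖ ^ (p - 2) * h (ec t) α) := by
      rw [hU]
      rfl
    have h3 : V t = c' t * (‖grad h (ec t)‖ ^ (p - 2) * fderiv ℝ h (ec t) (et t) α) := by
      rw [hV]
      rfl
    have h4 : (β • h (ec t)) α = β * h (ec t) α := rfl
    rw [h2, h3, h4, Real.rpow_add_one hr.ne']
    linear_combination (r ^ m * ‖grad h (ec t)‖ ^ (p - 2) * fderiv ℝ h (ec t) (et t) α) * d2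
  have hint : ∀ r : ℝ, 0 < r → ∫ t in (-Real.pi)..Real.pi, r * f (r • ec t) =
      (β * ∫ t in (-Real.pi)..Real.pi, U t) * (r ^ (m + 1) * deriv g r) +
      (∫ t in (-Real.pi)..Real.pi, V t) * (r ^ m * g r) := by
    intro r hr
    have h1 : (fun t => r * f (r • ec t)) = fun t =>
      r ^ (m + 1) * deriv g r * β * U t + r ^ m * g r * V t := funext fun t => hpt r hr t
    rw [h1, intervalIntegral.integral_add
      ((hUc.intervalIntegrable _ _).const_mul _) ((hVc.intervalIntegrable _ _).const_mul _),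
      intervalIntegral.integral_const_mul, intervalIntegral.integral_const_mul]
    ring
  have h1 : ∫ r in Ioi (0 : ℝ), ∫ t in (-Real.pi)..Real.pi, r * f (r • ec t) =
      ∫ r in Ioi (0 : ℝ), ((β * ∫ t in (-Real.pi)..Real.pi, U t) * (r ^ (m + 1) * deriv g r) +
      (∫ t in (-Real.pi)..Real.pi, V t) * (r ^ m * g r)) :=
    setIntegral_congr_fun measurableSet_Ioi fun r hr => hint r hr
  rw [h1, integral_add (i2.const_mul _) (i1.const_mul _), integral_const_mul, integral_const_mul,
    hparts] at hweak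
  have hCC : CC p β = β * (m + 1) := by
    unfold CC
    rw [hmd]
    ring
  have e1 : ∫ t in (-Real.pi)..Real.pi, (c' t • (‖grad h (ec t)‖ ^ (p - 2) •
      fderiv ℝ h (ec t) (et t))) α = ∫ t in (-Real.pi)..Real.pi, V t := by rw [hV]
  have e2 : ∫ t in (-Real.pi)..Real.pi, (c t • (‖grad h (ec t)‖ ^ (p - 2) • h (ec t))) α =
      ∫ t in (-Real.pi)..Real.pi, U t := by rw [hU]
  rw [e1, e2, hCC]
  have hI0 := hI.ne'
  apply mul_right_cancel₀ hI0
  linarith

end main

theorem t_C3 (hA : S_A) (hB : S_B) (hC1 : S_C1) (hC2 : S_C2) : S_C := by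
  intro n p β h hp hβ hH hhom k
  obtain ⟨g, ψc, ψs, hg, hgc, hg0, hg1, hψc, hψcc, hψs, hψsc, h1, h2⟩ := hC2 k
  constructor
  · apply moment hA hB hC1 hp hβ hH hhom hg hgc hg0 hg1 hψc hψcc
      (c := fun t => Real.cos (k * t)) (c' := fun t => -(k : ℝ) * Real.sin (k * t))
    · fun_prop
    · fun_prop
    · intro t
      have h3 : HasDerivAt (fun t : ℝ => (k : ℝ) * t) ((k : ℝ) * 1) t :=
        (hasDerivAt_id t).const_mul (k : ℝ)
      have h4 := h3.cos
      have e : -(k : ℝ) * Real.sin (k * t) = -Real.sin (k * t) * ((k : ℝ) * 1) := by ring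
      rw [e]
      exact h4
    · exact h1
  · apply moment hA hB hC1 hp hβ hH hhom hg hgc hg0 hg1 hψs hψsc
      (c := fun t => Real.sin (k * t)) (c' := fun t => (k : ℝ) * Real.cos (k * t))
    · fun_prop
    · fun_prop
    · intro t
      have h3 : HasDerivAt (fun t : ℝ => (k : ℝ) * t) ((k : ℝ) * 1) t :=
        (hasDerivAt_id t).const_mul (k : ℝ)
      have h4 := h3.sin
      have e : (k : ℝ) * Real.cos (k * t) = Real.cos (k * t) * ((k : ℝ) * 1) := by ring
      rw [e]
      exact h4
    · exact h2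

end Pool.Agent.H980.PH
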